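import Mathlib

set_option autoImplicit false
set_option linter.unusedSectionVars false
set_option linter.unusedSimpArgs false

/-! Karger's bound for the number of small cuts of a multigraph, by contraction. -/

namespace Pool.Agent.Helper45_Comp

open Finset

section
variable {E : Type} [Fintype E] [DecidableEq E]

/-- Edges with exactly one end in `S`. -/
def bd {W : Type} [DecidableEq W] (a b : E → W) (S : Finset W) : Finset E :=
  univ.filter (fun e => ¬ (a e ∈ S ↔ b e ∈ S))

theorem mem_bd {W : Type} [DecidableEq W] (a b : E → W) (S : Finset W) (e : E) :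
    e ∈ bd a b S ↔ ¬ (a e ∈ S ↔ b e ∈ S) := by simp [bd]

/-- non-trivial cuts with `2 |bd S| ≤ t * l` -/
def smallCuts {W : Type} [Fintype W] [DecidableEq W] (a b : E → W) (t l : ℕ) :
    Finset (Finset W) :=
  univ.filter (fun S => S.Nonempty ∧ S ≠ univ ∧ 2 * (bd a b S).card ≤ t * l)

theorem mem_smallCuts {W : Type} [Fintype W] [DecidableEq W] (a b : E → W) (t l : ℕ)
    (S : Finset W) : S ∈ smallCuts a b t l ↔
      S.Nonempty ∧ S ≠ univ ∧ 2 * (bd a b S).card ≤ t * l := by simp [smallCuts]

/-- the contraction map -/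
def contr {W : Type} [DecidableEq W] (x y : W) (hxy : x ≠ y) (w : W) : {w : W // w ≠ y} :=
  if h : w = y then ⟨x, hxy⟩ else ⟨w, h⟩

theorem contr_val {W : Type} [DecidableEq W] (x y : W) (hxy : x ≠ y) (w : {w : W // w ≠ y}) :
    contr x y hxy w.1 = w := by
  unfold contr
  rw [dif_neg w.2]

theorem bd_contr {W : Type} [Fintype W] [DecidableEq W] (a b : E → W) (x y : W) (hxy : x ≠ y)
    (S : Finset {w : W // w ≠ y}) :
    bd (fun e => contr x y hxy (a e)) (fun e => contr x y hxy (b e)) S =
      bd a b (univ.filter (fun w => contr x y hxy w ∈ S)) := by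
  ext e
  simp [bd]

theorem contr_cut {W : Type} [Fintype W] [DecidableEq W] (a b : E → W) (x y : W) (hxy : x ≠ y)
    (l : ℕ) (h : ∀ S : Finset W, S.Nonempty → S ≠ univ → l ≤ (bd a b S).card)
    (S : Finset {w : W // w ≠ y}) (h1 : S.Nonempty) (h2 : S ≠ univ) :
    l ≤ (bd (fun e => contr x y hxy (a e)) (fun e => contr x y hxy (b e)) S).card := by
  rw [bd_contr]
  apply h
  · obtain ⟨w, hw⟩ := h1
    exact ⟨w.1, by simp [contr_val, hw]⟩
  · intro h3
    apply h2
    ext w
    have : w.1 ∈ univ.filter (fun w => contr x y hxy w ∈ S) := by rw [h3]; simp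
    simpa [contr_val] using this

theorem contr_count {W : Type} [Fintype W] [DecidableEq W] (a b : E → W) (e : E)
    (he : a e ≠ b e) (t l : ℕ) :
    ((smallCuts a b t l).filter (fun S => e ∉ bd a b S)).card ≤
      (smallCuts (fun e' => contr (a e) (b e) he (a e'))
        (fun e' => contr (a e) (b e) he (b e')) t l).card := by
  apply Finset.card_le_card_of_injOn
    (fun S => univ.filter (fun w : {w : W // w ≠ b e} => w.1 ∈ S))
  · intro S hS
    simp only [Finset.coe_filter, Set.mem_ofPred_eq] at hS
    obtain ⟨hS, heS⟩ := hS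
    rw [mem_bd, not_not] at heS
    rw [mem_smallCuts] at hS
    obtain ⟨hne, hu, hc⟩ := hS
    have hback : univ.filter (fun w => contr (a e) (b e) he w ∈
        univ.filter (fun w : {w : W // w ≠ b e} => w.1 ∈ S)) = S := by
      ext w
      simp only [mem_filter, mem_univ, true_and]
      by_cases hw : w = b e
      · subst hw
        simp [contr, heS]
      · simp [contr, hw]
    show _ ∈ (smallCuts _ _ t l : Finset _)
    rw [mem_smallCuts]
    refine ⟨?_, ?_, ?_⟩
    · obtain ⟨w, hw⟩ := hne
      by_cases hwb : w = b e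
      · exact ⟨⟨a e, he⟩, by simp [heS, ← hwb, hw]⟩
      · exact ⟨⟨w, hwb⟩, by simp [hw]⟩
    · intro h3
      apply hu
      ext w
      simp only [mem_univ, iff_true]
      have hall : ∀ w : {w : W // w ≠ b e}, w.1 ∈ S := by
        intro w
        have : w ∈ univ.filter (fun w : {w : W // w ≠ b e} => w.1 ∈ S) := by
          show w ∈ (fun S : Finset W => univ.filter
            (fun w : {w : W // w ≠ b e} => w.1 ∈ S)) S
          rw [h3]; simp
        simpa using this
      by_cases hwb : w = b e
      · rw [hwb]
        exact heS.mp (hall ⟨a e, he⟩)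
      · exact hall ⟨w, hwb⟩
    · rw [bd_contr]
      show 2 * (bd a b (univ.filter (fun w => contr (a e) (b e) he w ∈
        univ.filter (fun w : {w : W // w ≠ b e} => w.1 ∈ S)))).card ≤ t * l
      rw [hback]
      exact hc
  · intro S hS S' hS' hSS
    simp only [Finset.coe_filter, Set.mem_ofPred_eq] at hS hS'
    have h1 := hS.2
    have h2 := hS'.2
    rw [mem_bd, not_not] at h1 h2
    have hval : ∀ w : {w : W // w ≠ b e}, w.1 ∈ S ↔ w.1 ∈ S' := by
      intro w
      have := congrArg (fun T : Finset {w : W // w ≠ b e} => w ∈ T) hSS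
      simpa using this
    ext w
    by_cases hwb : w = b e
    · rw [hwb, ← h1, ← h2]
      exact hval ⟨a e, he⟩
    · exact hval ⟨w, hwb⟩

/-- handshake: sum of the degrees -/
theorem sum_deg {W : Type} [Fintype W] [DecidableEq W] (a b : E → W) :
    ∑ w : W, (bd a b {w}).card = 2 * (univ.filter (fun e => a e ≠ b e)).card := by
  have h1 : ∀ w : W, (bd a b {w}).card =
      ∑ e ∈ univ.filter (fun e => a e ≠ b e), ((if a e = w then 1 else 0) +
        (if b e = w then 1 else 0)) := by
    intro w
    rw [bd, Finset.card_filter, Finset.sum_filter]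
    apply Finset.sum_congr rfl
    intro e _
    simp only [mem_singleton]
    by_cases h : a e = b e
    · simp [h]
    · by_cases h1 : a e = w
      · have h2 : b e ≠ w := fun h2 => h (h1.trans h2.symm)
        simp [h, h1, h2]
        intro h3; exact h2 h3.symm
      · by_cases h2 : b e = w
        · simp [h, h1, h2]
        · simp [h, h1, h2]
  rw [Finset.sum_congr rfl (fun w _ => h1 w), Finset.sum_comm]
  rw [Finset.sum_congr rfl (g := fun _ => 2)]
  · simp [mul_comm]
  · intro e _
    rw [Finset.sum_add_distrib]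
    simp

theorem cut_count (t l : ℕ) (hl : 1 ≤ l) : ∀ n : ℕ, t ≤ n → ∀ (W : Type) [Fintype W]
    [DecidableEq W], Fintype.card W = n → ∀ a b : E → W,
    (∀ S : Finset W, S.Nonempty → S ≠ univ → l ≤ (bd a b S).card) →
    (smallCuts a b t l).card ≤ 2 ^ t * n.choose t := by
  intro n hn
  induction n, hn using Nat.le_induction with
  | base =>
    intro W _ _ hW a b _
    calc (smallCuts a b t l).card ≤ (univ : Finset (Finset W)).card :=
          Finset.card_le_card (Finset.filter_subset _ _)
      _ = 2 ^ t := by rw [Finset.card_univ, Fintype.card_finset, hW]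
      _ ≤ 2 ^ t * t.choose t := by simp
  | succ n hn ih =>
    intro W _ _ hW a b hcut
    rcases Nat.eq_zero_or_pos (smallCuts a b t l).card with h0 | hpos
    · rw [h0]; exact Nat.zero_le _
    -- there is a nontrivial set
    obtain ⟨S0, hS0⟩ := Finset.card_pos.mp hpos
    rw [mem_smallCuts] at hS0
    have hW2 : 2 ≤ Fintype.card W := by
      obtain ⟨x, hx⟩ := hS0.1
      have : ∃ y, y ∉ S0 := by
        by_contra hcon
        push Not at hcon
        exact hS0.2.1 (Finset.eq_univ_iff_forall.mpr hcon)
      obtain ⟨y, hy⟩ := this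
      have hxy : x ≠ y := fun h => hy (h ▸ hx)
      exact Fintype.one_lt_card_iff.mpr ⟨x, y, hxy⟩
    set E' : Finset E := univ.filter (fun e => a e ≠ b e) with hE'
    have hdeg : (n + 1) * l ≤ 2 * E'.card := by
      rw [hE', ← sum_deg a b, ← hW]
      calc Fintype.card W * l = ∑ _w : W, l := by simp
        _ ≤ ∑ w : W, (bd a b {w}).card := by
          apply Finset.sum_le_sum
          intro w _
          apply hcut _ (Finset.singleton_nonempty w)
          intro h
          have := congrArg Finset.card h
          rw [Finset.card_singleton, Finset.card_univ] at this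
          omega
    set B : ℕ := 2 ^ t * n.choose t with hB
    -- contraction
    have hcon : ∀ e ∈ E', ((smallCuts a b t l).filter (fun S => e ∉ bd a b S)).card ≤ B := by
      intro e he
      have he' : a e ≠ b e := by simpa [hE'] using he
      refine (contr_count a b e he' t l).trans ?_
      apply ih
      · rw [Fintype.card_subtype_compl, Fintype.card_subtype_eq, hW]
        rfl
      · intro S h1 h2
        exact contr_cut a b _ _ he' l hcut S h1 h2
    have hsum : ∑ e ∈ E', ((smallCuts a b t l).filter (fun S => e ∉ bd a b S)).card =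
        ∑ S ∈ smallCuts a b t l, (E'.card - (bd a b S).card) := by
      simp_rw [Finset.card_filter]
      rw [Finset.sum_comm]
      apply Finset.sum_congr rfl
      intro S _
      rw [← Finset.card_filter]
      have hsub : bd a b S ⊆ E' := by
        intro e he
        rw [mem_bd] at he
        simp only [hE', mem_filter, mem_univ, true_and]
        intro h
        apply he
        rw [h]
      rw [← Finset.card_sdiff_of_subset hsub]
      congr 1
      ext e
      simp [and_comm]
    have hle : ∑ S ∈ smallCuts a b t l, (E'.card - (bd a b S).card) ≤ E'.card * B := by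
      rw [← hsum]
      calc _ ≤ ∑ _e ∈ E', B := Finset.sum_le_sum hcon
        _ = E'.card * B := by simp
    -- lower bound
    have hlow : ((smallCuts a b t l).card : ℤ) * (2 * (E'.card : ℤ) - t * l) ≤
        2 * (E'.card : ℤ) * B := by
      have h1 : ((∑ S ∈ smallCuts a b t l, (E'.card - (bd a b S).card) : ℕ) : ℤ) * 2 ≥
          ((smallCuts a b t l).card : ℤ) * (2 * (E'.card : ℤ) - t * l) := by
        rw [Nat.cast_sum, Finset.sum_mul]
        have : ((smallCuts a b t l).card : ℤ) * (2 * (E'.card : ℤ) - t * l) =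
            ∑ _S ∈ smallCuts a b t l, (2 * (E'.card : ℤ) - t * l) := by
          simp only [Finset.sum_const, nsmul_eq_mul]
        rw [this]
        apply Finset.sum_le_sum
        intro S hS
        rw [mem_smallCuts] at hS
        have h2 := hS.2.2
        have h3 : (E'.card : ℤ) - (bd a b S).card ≤ ((E'.card - (bd a b S).card : ℕ) : ℤ) := by
          omega
        have h4 : (2 * (bd a b S).card : ℤ) ≤ t * l := by exact_mod_cast h2
        linarith
      have h2 : ((∑ S ∈ smallCuts a b t l, (E'.card - (bd a b S).card) : ℕ) : ℤ) ≤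
          (E'.card : ℤ) * B := by exact_mod_cast hle
      linarith
    have hEpos : 0 < E'.card := by
      have : 1 * 1 ≤ (n + 1) * l := Nat.mul_le_mul (by omega) hl
      omega
    set N : ℕ := (smallCuts a b t l).card with hN
    have hfin : N * (n + 1 - t) ≤ (n + 1) * B := by
      have hdeg' : ((n : ℤ) + 1) * l ≤ 2 * (E'.card : ℤ) := by exact_mod_cast hdeg
      have hNn : (0 : ℤ) ≤ N := Int.natCast_nonneg _
      have htn : (0 : ℤ) ≤ t := Int.natCast_nonneg _
      have h1 : (N : ℤ) * ((n : ℤ) + 1 - t) * (2 * (E'.card : ℤ)) ≤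
          ((n : ℤ) + 1) * B * (2 * (E'.card : ℤ)) := by
        have h2 : (N : ℤ) * ((n : ℤ) + 1 - t) * (2 * (E'.card : ℤ)) ≤
            ((n : ℤ) + 1) * ((N : ℤ) * (2 * (E'.card : ℤ) - t * l)) := by
          have h3 : ((n : ℤ) + 1) * ((N : ℤ) * (2 * (E'.card : ℤ) - t * l)) -
              (N : ℤ) * ((n : ℤ) + 1 - t) * (2 * (E'.card : ℤ)) =
              (N : ℤ) * (t * (2 * (E'.card : ℤ) - ((n : ℤ) + 1) * l)) := by ring
          have h4 : 0 ≤ (N : ℤ) * (t * (2 * (E'.card : ℤ) - ((n : ℤ) + 1) * l)) :=
            mul_nonneg hNn (mul_nonneg htn (by linarith))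
          linarith
        have h5 : ((n : ℤ) + 1) * ((N : ℤ) * (2 * (E'.card : ℤ) - t * l)) ≤
            ((n : ℤ) + 1) * (2 * (E'.card : ℤ) * B) :=
          mul_le_mul_of_nonneg_left hlow (by positivity)
        linarith
      have hE2 : (0 : ℤ) < 2 * (E'.card : ℤ) := by
        have : (0 : ℤ) < (E'.card : ℤ) := by exact_mod_cast hEpos
        linarith
      have h6 := le_of_mul_le_mul_right h1 hE2
      have h7 : ((n + 1 - t : ℕ) : ℤ) = (n : ℤ) + 1 - t := by
        push_cast [Nat.cast_sub (by omega : t ≤ n + 1)]
        ring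
      have : ((N * (n + 1 - t) : ℕ) : ℤ) ≤ (((n + 1) * B : ℕ) : ℤ) := by
        push_cast [h7]
        linarith
      exact_mod_cast this
    have hch := Nat.choose_mul_succ_eq n t
    have h8 : N * (n + 1 - t) ≤ (2 ^ t * (n + 1).choose t) * (n + 1 - t) := by
      calc N * (n + 1 - t) ≤ (n + 1) * B := hfin
        _ = 2 ^ t * (n.choose t * (n + 1)) := by rw [hB]; ring
        _ = 2 ^ t * ((n + 1).choose t * (n + 1 - t)) := by rw [hch]
        _ = _ := by ring
    exact Nat.le_of_mul_le_mul_right h8 (by omega)

theorem cut_count' (t l : ℕ) (hl : 1 ≤ l) (W : Type) [Fintype W] [DecidableEq W] [Nonempty W]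
    (a b : E → W)
    (h : ∀ S : Finset W, S.Nonempty → S ≠ univ → l ≤ (bd a b S).card) :
    (smallCuts a b t l).card ≤ (2 * Fintype.card W) ^ t := by
  have hn : 1 ≤ Fintype.card W := Fintype.card_pos
  rcases le_or_gt t (Fintype.card W) with ht | ht
  · refine (cut_count t l hl _ ht W rfl a b h).trans ?_
    rw [mul_pow]
    exact Nat.mul_le_mul_left _ (Nat.choose_le_pow _ _)
  · calc (smallCuts a b t l).card ≤ (univ : Finset (Finset W)).card :=
          Finset.card_le_card (Finset.filter_subset _ _)
      _ = 2 ^ (Fintype.card W) := by rw [Finset.card_univ, Fintype.card_finset]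
      _ ≤ 2 ^ t := Nat.pow_le_pow_right (by norm_num) ht.le
      _ ≤ (2 * Fintype.card W) ^ t := Nat.pow_le_pow_left (by omega) t

end

end Pool.Agent.Helper45_Comp
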