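import Pool.Agent.Helper45_Comp.Label

set_option autoImplicit false
set_option linter.unusedSectionVars false

/-! Large deviation bound for the imbalance of a cut. -/

namespace Pool.Agent.Helper45_Comp

open Finset

section
variable {E : Type} [Fintype E] [DecidableEq E] (σ : Equiv.Perm E) (h : E → Fin 3)

def Win (x : E) : Finset E := {x, σ x, σ (σ x), σ.symm x, σ.symm (σ.symm x)}

theorem card_Win (x : E) : (Win σ x).card ≤ 5 := by
  unfold Win
  exact Finset.card_le_five

theorem mem_Win (e x : E) : e ∈ Win σ x ↔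
    e = x ∨ e = σ x ∨ e = σ (σ x) ∨ e = σ.symm x ∨ e = σ.symm (σ.symm x) := by
  simp [Win]

theorem Win_symm (e x : E) : e ∈ Win σ x ↔ x ∈ Win σ e := by
  rw [mem_Win, mem_Win]
  constructor
  · rintro (h | h | h | h | h) <;> subst h <;> simp
  · rintro (h | h | h | h | h) <;> subst h <;> simp

theorem c0_congr (w w' : E → Om) (x e : E) (hw : ∀ y, y ≠ x → w y = w' y) (h1 : e ≠ x) :
    c0 w e = c0 w' e := by
  unfold c0; rw [hw e h1]

theorem c1_congr (w w' : E → Om) (x e : E) (hw : ∀ y, y ≠ x → w y = w' y) (h1 : e ≠ x)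
    (h2 : σ e ≠ x) (h3 : σ.symm e ≠ x) : c1 σ h w e = c1 σ h w' e := by
  unfold c1
  rw [c0_congr w w' x e hw h1, c0_congr w w' x _ hw h2, c0_congr w w' x _ hw h3, hw e h1]

theorem c2_congr (w w' : E → Om) (x e : E) (hw : ∀ y, y ≠ x → w y = w' y)
    (hx : e ∉ Win σ x) : c2 σ h w e = c2 σ h w' e := by
  rw [Win_symm, mem_Win] at hx
  push Not at hx
  obtain ⟨h1, h2, h3, h4, h5⟩ := hx
  unfold c2
  rw [c1_congr σ h w w' x e hw h1.symm h2.symm h4.symm,
    c1_congr σ h w w' x (σ e) hw h2.symm h3.symm (by simpa using h1.symm),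
    c1_congr σ h w w' x (σ.symm e) hw h4.symm (by simpa using h1.symm) h5.symm,
    hw e h1.symm]

theorem fl_congr (w w' : E → Om) (x e : E) (hw : ∀ y, y ≠ x → w y = w' y)
    (hx : e ∉ Win σ x) : fl σ w e = fl σ w' e := by
  rw [Win_symm, mem_Win] at hx
  push Not at hx
  unfold fl
  rw [hw e hx.1.symm, hw (σ e) hx.2.1.symm]

/-- imbalance -/
noncomputable def fS (P M : Finset E) (i : Fin 3) (w : E → Om) : ℝ :=
  ∑ e ∈ P, (if c2 σ h w e = i ∧ fl σ w e = false then (1 : ℝ) else 0) -
    ∑ e ∈ M, (if c2 σ h w e = i then (1 : ℝ) else 0)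

theorem sum_diff_le (P W : Finset E) (u v : E → ℝ) (h0 : ∀ e ∉ W, u e = v e)
    (h1 : ∀ e, |u e - v e| ≤ 1) : |∑ e ∈ P, u e - ∑ e ∈ P, v e| ≤ ((P ∩ W).card : ℝ) := by
  rw [← Finset.sum_sub_distrib]
  have : ∑ e ∈ P, (u e - v e) = ∑ e ∈ P ∩ W, (u e - v e) := by
    symm
    apply Finset.sum_subset Finset.inter_subset_left
    intro e he he2
    have : e ∉ W := fun h => he2 (Finset.mem_inter.mpr ⟨he, h⟩)
    rw [h0 e this]; ring
  rw [this]
  calc |∑ e ∈ P ∩ W, (u e - v e)| ≤ ∑ e ∈ P ∩ W, |u e - v e| := Finset.abs_sum_le_sum_abs _ _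
    _ ≤ ∑ _e ∈ P ∩ W, (1 : ℝ) := Finset.sum_le_sum (fun e _ => h1 e)
    _ = _ := by simp

theorem fS_lip (P M : Finset E) (hPM : Disjoint P M) (i : Fin 3) (w w' : E → Om) (x : E)
    (hw : ∀ y, y ≠ x → w y = w' y) :
    |fS σ h P M i w - fS σ h P M i w'| ≤ (((P ∪ M) ∩ Win σ x).card : ℝ) := by
  have hind : ∀ (p q : Prop) [Decidable p] [Decidable q],
      |(if p then (1 : ℝ) else 0) - (if q then (1 : ℝ) else 0)| ≤ 1 := by
    intro p q _ _
    split_ifs <;> simp
  have h1 := sum_diff_le P (Win σ x)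
    (fun e => (if c2 σ h w e = i ∧ fl σ w e = false then (1 : ℝ) else 0))
    (fun e => (if c2 σ h w' e = i ∧ fl σ w' e = false then (1 : ℝ) else 0))
    (by intro e he; simp only [c2_congr σ h w w' x e hw he, fl_congr σ w w' x e hw he])
    (fun e => hind _ _)
  have h2 := sum_diff_le M (Win σ x)
    (fun e => (if c2 σ h w e = i then (1 : ℝ) else 0))
    (fun e => (if c2 σ h w' e = i then (1 : ℝ) else 0))
    (by intro e he; simp only [c2_congr σ h w w' x e hw he])
    (fun e => hind _ _)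
  have hcard : (((P ∪ M) ∩ Win σ x).card : ℝ) =
      ((P ∩ Win σ x).card : ℝ) + ((M ∩ Win σ x).card : ℝ) := by
    rw [Finset.union_inter_distrib_right, Finset.card_union_of_disjoint]
    · push_cast; rfl
    · exact Finset.disjoint_of_subset_left Finset.inter_subset_left
        (Finset.disjoint_of_subset_right Finset.inter_subset_left hPM)
  rw [hcard]
  unfold fS
  calc _ = |(∑ e ∈ P, (if c2 σ h w e = i ∧ fl σ w e = false then (1 : ℝ) else 0) -
          ∑ e ∈ P, (if c2 σ h w' e = i ∧ fl σ w' e = false then (1 : ℝ) else 0)) -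
          (∑ e ∈ M, (if c2 σ h w e = i then (1 : ℝ) else 0) -
          ∑ e ∈ M, (if c2 σ h w' e = i then (1 : ℝ) else 0))| := by congr 1; ring
    _ ≤ _ := (abs_sub _ _).trans (add_le_add h1 h2)

theorem sum_Win (D : Finset E) : ∑ x : E, (D ∩ Win σ x).card ≤ 5 * D.card := by
  have h1 : ∀ x : E, (D ∩ Win σ x).card = ∑ e ∈ D, (if e ∈ Win σ x then 1 else 0) := by
    intro x
    rw [← Finset.card_filter, Finset.filter_mem_eq_inter]
  rw [Finset.sum_congr rfl (fun x _ => h1 x), Finset.sum_comm]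
  calc ∑ e ∈ D, ∑ x : E, (if e ∈ Win σ x then 1 else 0) ≤ ∑ _e ∈ D, 5 := by
        apply Finset.sum_le_sum
        intro e _
        rw [← Finset.card_filter]
        refine le_trans ?_ (card_Win σ e)
        apply Finset.card_le_card
        intro x hx
        rw [← Win_symm]
        simpa using hx
    _ = 5 * D.card := by simp [mul_comm]

theorem mean_fS (hσ : ∀ e, σ e ≠ e) (P M : Finset E) (i : Fin 3) :
    ∑ w : E → Om, fS σ h P M i w = NN E * ((P.card : ℝ) / 4 - (M.card : ℝ) / 3) := by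
  have h1 : ∀ e, ∑ w : E → Om, (if c2 σ h w e = i ∧ fl σ w e = false then (1 : ℝ) else 0) =
      NN E / 4 := by
    intro e
    have h2 := sum_colour σ h (fun _ => True) (fun _ _ => Iff.rfl) e i
    have h3 := sum_colour σ h (fun w => fl σ w e = true) (fun g w => by rw [fl_act]) e i
    have h4 := sum_fl σ hσ e
    rw [h4] at h3
    have h5 : ∑ w : E → Om, (if c2 σ h w e = i ∧ fl σ w e = false then (1 : ℝ) else 0) =
        ∑ w : E → Om, (if c2 σ h w e = i ∧ True then (1 : ℝ) else 0) -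
        ∑ w : E → Om, (if c2 σ h w e = i ∧ fl σ w e = true then (1 : ℝ) else 0) := by
      rw [← Finset.sum_sub_distrib]
      apply Finset.sum_congr rfl
      intro w _
      by_cases h6 : c2 σ h w e = i
      · cases h7 : fl σ w e <;> simp [h6]
      · simp [h6]
    rw [h5, h2, h3]
    have : ∑ w : E → Om, (if True then (1 : ℝ) else 0) = NN E := by simp [NN]
    rw [this]
    ring
  have h2 : ∀ e, ∑ w : E → Om, (if c2 σ h w e = i then (1 : ℝ) else 0) = NN E / 3 := by
    intro e
    have h2 := sum_colour σ h (fun _ => True) (fun _ _ => Iff.rfl) e i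
    have : ∑ w : E → Om, (if True then (1 : ℝ) else 0) = NN E := by simp [NN]
    rw [this] at h2
    simpa using h2
  unfold fS
  rw [Finset.sum_sub_distrib, Finset.sum_comm, Finset.sum_comm (s := univ) (t := M)]
  rw [Finset.sum_congr rfl (fun e _ => h1 e), Finset.sum_congr rfl (fun e _ => h2 e)]
  simp
  ring

theorem tail (hσ : ∀ e, σ e ≠ e) (P M : Finset E) (hPM : Disjoint P M)
    (hc : P.card = M.card) (i : Fin 3) :
    ((univ.filter (fun w : E → Om => 0 < fS σ h P M i w)).card : ℝ) ≤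
      NN E * Real.exp (-(P.card : ℝ) / 28800) := by
  classical
  set lam : ℝ := 1 / 1200 with hlam
  set c : E → ℝ := fun x => lam * (((P ∪ M) ∩ Win σ x).card : ℝ) with hcdef
  have hle5 : ∀ x, (((P ∪ M) ∩ Win σ x).card : ℝ) ≤ 5 := by
    intro x
    have : ((P ∪ M) ∩ Win σ x).card ≤ 5 :=
      (Finset.card_le_card Finset.inter_subset_right).trans (card_Win σ x)
    exact_mod_cast this
  have h1 := mgf (ι := E) (Ω := Om) (fun w => lam * fS σ h P M i w) c
    (by
      intro x
      rw [hcdef, hlam]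
      simp only
      have := hle5 x
      linarith)
    (by
      intro x w w' hw
      have := fS_lip σ h P M hPM i w w' x hw
      rw [← mul_sub, abs_mul, abs_of_pos (by rw [hlam]; norm_num : (0 : ℝ) < lam)]
      exact mul_le_mul_of_nonneg_left this (by rw [hlam]; norm_num))
  have h2 : ((univ.filter (fun w : E → Om => 0 < fS σ h P M i w)).card : ℝ) ≤
      ∑ w : E → Om, Real.exp (lam * fS σ h P M i w) := by
    rw [Finset.card_filter]
    push_cast
    apply Finset.sum_le_sum
    intro w _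
    split_ifs with hw
    · rw [← Real.exp_zero]
      apply Real.exp_le_exp.mpr
      apply mul_nonneg (by rw [hlam]; norm_num) hw.le
    · exact (Real.exp_pos _).le
  have h3 : (∑ w : E → Om, lam * fS σ h P M i w) / (Fintype.card (E → Om) : ℝ) =
      -lam * (P.card : ℝ) / 12 := by
    rw [← Finset.mul_sum, mean_fS σ h hσ, hc]
    have := NN_pos (E := E)
    unfold NN at this ⊢
    field_simp
    ring
  have h4 : ∑ x, c x ^ 2 ≤ lam ^ 2 * (50 * P.card) := by
    have h5 : ∀ x, c x ^ 2 ≤ lam ^ 2 * (5 * (((P ∪ M) ∩ Win σ x).card : ℝ)) := by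
      intro x
      rw [hcdef]
      simp only
      rw [mul_pow]
      apply mul_le_mul_of_nonneg_left _ (sq_nonneg _)
      have := hle5 x
      have h0 : (0 : ℝ) ≤ (((P ∪ M) ∩ Win σ x).card : ℝ) := Nat.cast_nonneg _
      nlinarith
    calc ∑ x, c x ^ 2 ≤ ∑ x, lam ^ 2 * (5 * (((P ∪ M) ∩ Win σ x).card : ℝ)) :=
          Finset.sum_le_sum (fun x _ => h5 x)
      _ = lam ^ 2 * (5 * ((∑ x, ((P ∪ M) ∩ Win σ x).card : ℕ) : ℝ)) := by
          push_cast
          rw [Finset.mul_sum, Finset.mul_sum]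
      _ ≤ lam ^ 2 * (5 * ((5 * (P ∪ M).card : ℕ) : ℝ)) := by
          apply mul_le_mul_of_nonneg_left _ (sq_nonneg _)
          apply mul_le_mul_of_nonneg_left _ (by norm_num)
          exact_mod_cast sum_Win σ (P ∪ M)
      _ = lam ^ 2 * (50 * P.card) := by
          rw [Finset.card_union_of_disjoint hPM, ← hc]
          push_cast
          ring
  calc _ ≤ _ := h2
    _ ≤ _ := h1
    _ ≤ NN E * Real.exp (-(P.card : ℝ) / 28800) := by
      unfold NN
      apply mul_le_mul_of_nonneg_left _ (Nat.cast_nonneg _)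
      apply Real.exp_le_exp.mpr
      rw [h3]
      rw [hlam] at h4 ⊢
      linarith

end

end Pool.Agent.Helper45_Comp
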