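import Pool.Agent.Helper45_Comp.Main

set_option autoImplicit false
set_option linter.unusedSectionVars false

/-! Compatible decompositions of Eulerian digraphs with logarithmic arc-connectivity:
from a good colouring to the decomposition. -/

namespace Pool.Agent.Helper45_Comp

open Finset

section
variable {V E : Type} [Fintype V] [DecidableEq V] [Fintype E] [DecidableEq E]
  (head tail : E → V)

/-- numbers of the arcs of a set with head, tail, both ends in `S` -/
theorem count_split (Q : Finset E) (S : Finset V) :
    (Q.filter (fun e => head e ∈ S)).card =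
      (Q.filter (fun e => tail e ∈ S ∧ head e ∈ S)).card +
        ((inA head tail S).filter (fun e => e ∈ Q)).card := by
  rw [← Finset.card_filter_add_card_filter_not (s := Q.filter (fun e => head e ∈ S))
      (fun e => tail e ∈ S)]
  congr 2
  · ext e; simp only [mem_filter]; tauto
  · ext e; simp only [mem_filter, inA, mem_univ, true_and]; tauto

theorem count_split' (Q : Finset E) (S : Finset V) :
    (Q.filter (fun e => tail e ∈ S)).card =
      (Q.filter (fun e => tail e ∈ S ∧ head e ∈ S)).card +
        ((outA head tail S).filter (fun e => e ∈ Q)).card := by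
  rw [← Finset.card_filter_add_card_filter_not (s := Q.filter (fun e => tail e ∈ S))
      (fun e => head e ∈ S)]
  congr 2
  · ext e; simp only [mem_filter]; tauto
  · ext e; simp only [mem_filter, outA, mem_univ, true_and]; tauto

theorem sum_fib (Q : Finset E) (S : Finset V) (u : E → V) :
    ∑ v ∈ S, (Q.filter (fun e => u e = v)).card = (Q.filter (fun e => u e ∈ S)).card := by
  rw [Finset.card_eq_sum_card_fiberwise (f := u) (s := Q.filter (fun e => u e ∈ S)) (t := S)]
  · apply Finset.sum_congr rfl
    intro v hv
    congr 1
    ext e
    simp only [mem_filter]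
    constructor
    · rintro ⟨h1, h2⟩
      exact ⟨⟨h1, h2 ▸ hv⟩, h2⟩
    · rintro ⟨⟨h1, _⟩, h3⟩
      exact ⟨h1, h3⟩
  · intro e he
    simp only [Finset.coe_filter, Set.mem_ofPred_eq] at he
    exact he.2

/-- one colour class: fixed arcs `F`, flexible arcs `R` -/
theorem exists_class (F R : Finset E) (hFR : Disjoint F R)
    (hcond : ∀ S : Finset V, S.Nonempty → S ≠ univ →
      ((outA head tail S).filter (fun e => e ∈ F)).card ≤
        ((inA head tail S).filter (fun e => e ∈ F ∪ R)).card) :
    ∃ φ : E → V, (∀ e ∈ R, φ e = tail e ∨ φ e = head e) ∧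
      ∀ v, (R.filter (fun e => φ e = v)).card + (F.filter (fun e => tail e = v)).card =
        ((F ∪ R).filter (fun e => head e = v)).card := by
  -- the condition for all sets
  have hall : ∀ S : Finset V, (F.filter (fun e => tail e ∈ S)).card +
      (R.filter (fun e => tail e ∈ S ∧ head e ∈ S)).card ≤
      ((F ∪ R).filter (fun e => head e ∈ S)).card := by
    intro S
    have h1 : ((outA head tail S).filter (fun e => e ∈ F)).card ≤
        ((inA head tail S).filter (fun e => e ∈ F ∪ R)).card := by
      by_cases hS1 : S.Nonempty
      · by_cases hS2 : S = univ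
        · have : (outA head tail S).filter (fun e => e ∈ F) = ∅ := by
            ext e
            simp [outA, hS2]
          rw [this]; simp
        · exact hcond S hS1 hS2
      · rw [Finset.not_nonempty_iff_eq_empty] at hS1
        have : (outA head tail S).filter (fun e => e ∈ F) = ∅ := by
          ext e
          simp [outA, hS1]
        rw [this]; simp
    rw [count_split' head tail F S, count_split head tail (F ∪ R) S]
    have h2 : ((F ∪ R).filter (fun e => tail e ∈ S ∧ head e ∈ S)).card =
        (F.filter (fun e => tail e ∈ S ∧ head e ∈ S)).card +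
        (R.filter (fun e => tail e ∈ S ∧ head e ∈ S)).card := by
      rw [Finset.filter_union, Finset.card_union_of_disjoint]
      exact Finset.disjoint_filter_filter hFR
    omega
  have hv : ∀ v, (F.filter (fun e => tail e = v)).card ≤
      ((F ∪ R).filter (fun e => head e = v)).card := by
    intro v
    have := hall {v}
    simp only [mem_singleton] at this
    omega
  set m : V → ℕ := fun v => ((F ∪ R).filter (fun e => head e = v)).card -
    (F.filter (fun e => tail e = v)).card with hm
  have hsum : ∀ S : Finset V, ∑ v ∈ S, m v + (F.filter (fun e => tail e ∈ S)).card =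
      ((F ∪ R).filter (fun e => head e ∈ S)).card := by
    intro S
    rw [← sum_fib F S tail, ← sum_fib (F ∪ R) S head, ← Finset.sum_add_distrib]
    apply Finset.sum_congr rfl
    intro v _
    rw [hm]
    simp only
    have := hv v
    omega
  obtain ⟨φ, h1, h2⟩ := exists_assign R tail head m
    (by
      have := hsum univ
      simp only [mem_univ, Finset.filter_true] at this
      rw [Finset.card_union_of_disjoint hFR] at this
      omega)
    (by
      intro S
      have h3 := hsum S
      have h4 := hall S
      omega)
  refine ⟨φ, h1, ?_⟩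
  intro v
  rw [h2 v, hm]
  simp only
  have := hv v
  omega

theorem main_aux [Nonempty V] (hloop : ∀ e, head e ≠ tail e) (σ : Equiv.Perm E)
    (hσ : ∀ e, tail (σ e) = head e) (k : ℕ) (hk : 1 ≤ k)
    (hcut : ∀ S : Finset V, S.Nonempty → S ≠ univ → k ≤ (outA head tail S).card)
    (hρ : 2 * (Fintype.card V : ℝ) * Real.exp (-(k : ℝ) / 115200) ≤ 1 / 4) :
    ∃ τ : Equiv.Perm E, (∀ e, tail (τ e) = head e) ∧ ∀ e, ¬ τ.SameCycle e (σ e) := by
  classical
  obtain ⟨c, R, hc, hR, hgood⟩ := exists_good head tail hloop σ hσ k hk hcut hρ
  set Fi : Fin 3 → Finset E := fun i => univ.filter (fun e => c e = i ∧ R e = false) with hFi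
  set Ri : Fin 3 → Finset E := fun i => univ.filter (fun e => c e = i ∧ R e = true) with hRi
  have hun : ∀ i, Fi i ∪ Ri i = univ.filter (fun e => c e = i) := by
    intro i
    ext e
    simp only [hFi, hRi, mem_union, mem_filter, mem_univ, true_and]
    cases R e <;> simp
  have hdis : ∀ i, Disjoint (Fi i) (Ri i) := by
    intro i
    rw [Finset.disjoint_left]
    intro e h1 h2
    simp only [hFi, hRi, mem_filter, mem_univ, true_and] at h1 h2
    rw [h1.2] at h2
    exact absurd h2.2 (by simp)
  have hcl : ∀ i, ∃ φ : E → V, (∀ e ∈ Ri i, φ e = tail e ∨ φ e = head e) ∧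
      ∀ v, ((Ri i).filter (fun e => φ e = v)).card + ((Fi i).filter (fun e => tail e = v)).card =
        ((Fi i ∪ Ri i).filter (fun e => head e = v)).card := by
    intro i
    apply exists_class head tail (Fi i) (Ri i) (hdis i)
    intro S h1 h2
    have := hgood S h1 h2 i
    rw [hun]
    simpa [hFi] using this
  choose φ hφ1 hφ2 using hcl
  set col : E → Option (Fin 3) := fun e =>
    if R e = true ∧ φ (c e) e = head e then none else some (c e) with hcol
  have hcols : ∀ e i, col e = some i ↔ c e = i ∧ (R e = false ∨ φ i e = tail e) := by
    intro e i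
    simp only [hcol]
    constructor
    · intro h
      split_ifs at h with h1
      have h2 : c e = i := by simpa using h
      refine ⟨h2, ?_⟩
      cases hRe : R e with
      | false => exact Or.inl rfl
      | true =>
        right
        have h3 : e ∈ Ri (c e) := by simp [hRi, hRe]
        rcases hφ1 (c e) e h3 with h4 | h4
        · rw [← h2]; exact h4
        · exact absurd ⟨hRe, h4⟩ h1
    · rintro ⟨h1, h2⟩
      subst h1
      rw [if_neg]
      rintro ⟨h3, h4⟩
      rcases h2 with h2 | h2
      · rw [h2] at h3; exact absurd h3 (by simp)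
      · exact hloop e (h4.symm.trans h2)
  -- balance of the colours
  have hbal : ∀ (i : Fin 3) (v : V),
      (univ.filter (fun e => head e = v ∧ col e = some i)).card =
        (univ.filter (fun e => tail e = v ∧ col e = some i)).card := by
    intro i v
    have h1 : (univ.filter (fun e => tail e = v ∧ col e = some i)).card =
        ((Fi i).filter (fun e => tail e = v)).card +
        ((Ri i).filter (fun e => φ i e = v ∧ tail e = v)).card := by
      rw [← Finset.card_union_of_disjoint]
      · congr 1
        ext e
        simp only [mem_filter, mem_univ, true_and, mem_union, hFi, hRi, hcols]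
        constructor
        · rintro ⟨h2, h3, h4⟩
          cases hRe : R e with
          | false => left; exact ⟨⟨h3, rfl⟩, h2⟩
          | true =>
            right
            rcases h4 with h4 | h4
            · rw [hRe] at h4; exact absurd h4 (by simp)
            · exact ⟨⟨h3, rfl⟩, h4.trans h2, h2⟩
        · rintro (⟨⟨h2, h3⟩, h4⟩ | ⟨⟨h2, h3⟩, h4, h5⟩)
          · exact ⟨h4, h2, Or.inl h3⟩
          · exact ⟨h5, h2, Or.inr (h4.trans h5.symm)⟩
      · exact Finset.disjoint_of_subset_left (Finset.filter_subset _ _)
          (Finset.disjoint_of_subset_right (Finset.filter_subset _ _) (hdis i))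
    have h2 : (univ.filter (fun e => head e = v ∧ col e = some i)).card +
        ((Ri i).filter (fun e => φ i e = v ∧ head e = v)).card =
        ((Fi i ∪ Ri i).filter (fun e => head e = v)).card := by
      rw [hun, ← Finset.card_union_of_disjoint]
      · congr 1
        ext e
        simp only [mem_filter, mem_univ, true_and, mem_union, hRi, hcols]
        constructor
        · rintro (⟨h2, h3, _⟩ | ⟨⟨h2, h3⟩, h4, h5⟩)
          · exact ⟨h3, h2⟩
          · exact ⟨h2, h5⟩
        · rintro ⟨h2, h3⟩
          cases hRe : R e with
          | false => left; exact ⟨h3, h2, Or.inl rfl⟩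
          | true =>
            have h6 : e ∈ Ri i := by simp [hRi, hRe, h2]
            rcases hφ1 i e h6 with h4 | h4
            · left; exact ⟨h3, h2, Or.inr h4⟩
            · right; exact ⟨⟨h2, rfl⟩, h4.trans h3, h3⟩
      · rw [Finset.disjoint_left]
        intro e h3 h4
        simp only [mem_filter, mem_univ, true_and, hRi, hcols] at h3 h4
        rcases h3.2.2 with h5 | h5
        · rw [h5] at h4; exact absurd h4.1.2 (by simp)
        · exact hloop e (h4.2.2.trans (h4.2.1.symm.trans h5))
    have h3 : ((Ri i).filter (fun e => φ i e = v)).card =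
        ((Ri i).filter (fun e => φ i e = v ∧ tail e = v)).card +
        ((Ri i).filter (fun e => φ i e = v ∧ head e = v)).card := by
      rw [← Finset.card_union_of_disjoint]
      · congr 1
        ext e
        simp only [mem_filter, mem_union]
        constructor
        · rintro ⟨h4, h5⟩
          rcases hφ1 i e h4 with h6 | h6
          · left; exact ⟨h4, h5, h6.symm.trans h5⟩
          · right; exact ⟨h4, h5, h6.symm.trans h5⟩
        · rintro (⟨h4, h5, _⟩ | ⟨h4, h5, _⟩)
          · exact ⟨h4, h5⟩
          · exact ⟨h4, h5⟩
      · rw [Finset.disjoint_left]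
        intro e h4 h5
        simp only [mem_filter] at h4 h5
        exact hloop e (h5.2.2.trans h4.2.2.symm)
    have h4 := hφ2 i v
    omega
  have hbal' : ∀ (x : Option (Fin 3)) (v : V),
      (univ.filter (fun e => head e = v ∧ col e = x)).card =
        (univ.filter (fun e => tail e = v ∧ col e = x)).card := by
    intro x v
    cases x with
    | some i => exact hbal i v
    | none =>
      have h1 : (univ.filter (fun e => tail e = v)).card =
          (univ.filter (fun e => head e = v)).card := by
        rw [Finset.card_filter, Finset.card_filter, ← Equiv.sum_comp σ]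
        apply Finset.sum_congr rfl
        intro e _
        rw [hσ]
      have h2 : ∀ u : E → V, (univ.filter (fun e => u e = v)).card =
          (univ.filter (fun e => u e = v ∧ col e = none)).card +
          ∑ i : Fin 3, (univ.filter (fun e => u e = v ∧ col e = some i)).card := by
        intro u
        rw [Finset.card_eq_sum_card_fiberwise (f := col) (s := univ.filter (fun e => u e = v))
          (t := (univ : Finset (Option (Fin 3)))) (by intro e _; simp)]
        rw [Fintype.sum_option]
        simp only [Finset.filter_filter]
      rw [h2 head, h2 tail, Finset.sum_congr rfl (fun i _ => hbal i v)] at h1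
      omega
  obtain ⟨τ, hτ⟩ := exists_perm_of_card (fun e => (head e, col e)) (fun e => (tail e, col e))
    (by
      rintro ⟨v, x⟩
      have := hbal' x v
      simpa [Prod.ext_iff] using this)
  have hτ1 : ∀ e, tail (τ e) = head e := fun e => congrArg Prod.fst (hτ e)
  have hτ2 : ∀ e, col (τ e) = col e := fun e => congrArg Prod.snd (hτ e)
  refine ⟨τ, hτ1, ?_⟩
  intro e hsc
  have hpow : ∀ j : ℕ, col ((τ ^ j) e) = col e := by
    intro j
    induction j with
    | zero => rfl
    | succ j ih => rw [pow_succ', Equiv.Perm.mul_apply, hτ2, ih]
  obtain ⟨j, _, hj⟩ := hsc.exists_pow_eq'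
  have h1 : col (σ e) = col e := by rw [← hj]; exact hpow j
  cases hce : col e with
  | none =>
    rw [hce] at h1
    have h2 : ∀ x, col x = none → R x = true := by
      intro x hx
      simp only [hcol] at hx
      split_ifs at hx with h3
      exact h3.1
    exact hR e ⟨h2 e hce, h2 _ h1⟩
  | some i =>
    rw [hce] at h1
    exact hc e (((hcols e i).mp hce).1.trans ((hcols _ i).mp h1).1.symm)

end

/-- Absolute constant: arc-connectivity at least `460800 log n` suffices. -/
theorem logarithmic (V E : Type) [Fintype V] [DecidableEq V] [Fintype E] (head tail : E → V)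
    (hloop : ∀ e, head e ≠ tail e) (k : ℕ)
    (hk : 460800 * Real.log (Fintype.card V) ≤ k)
    (hcut : ∀ S : Finset V, S.Nonempty → S ≠ Finset.univ →
      k ≤ (Finset.univ.filter (fun e : E => tail e ∈ S ∧ head e ∉ S)).card)
    (σ : Equiv.Perm E) (hσ : ∀ e, tail (σ e) = head e) :
    ∃ τ : Equiv.Perm E, (∀ e, tail (τ e) = head e) ∧ ∀ e, ¬ τ.SameCycle e (σ e) := by
  classical
  rcases le_or_gt (Fintype.card V) 1 with hn | hn
  · have := Fintype.card_le_one_iff.mp hn
    exact ⟨σ, hσ, fun e => absurd (this _ _) (hloop e)⟩
  · have : Nonempty V := Fintype.card_pos_iff.mp (by omega)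
    have hn2 : (2 : ℝ) ≤ Fintype.card V := by exact_mod_cast hn
    have hlog : 0 < Real.log (Fintype.card V) := Real.log_pos (by linarith)
    have hk1 : 1 ≤ k := by
      have : (0 : ℝ) < k := by linarith
      have : 0 < k := by exact_mod_cast this
      omega
    apply main_aux head tail hloop σ hσ k hk1
    · intro S h1 h2
      exact hcut S h1 h2
    · have h1 : Real.exp (-(k : ℝ) / 115200) ≤ ((Fintype.card V : ℝ) ^ 4)⁻¹ := by
        have h2 : (Fintype.card V : ℝ) ^ 4 = Real.exp (4 * Real.log (Fintype.card V)) := by
          rw [mul_comm, Real.exp_mul, Real.exp_log (by linarith)]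
          norm_cast
        rw [h2, ← Real.exp_neg]
        apply Real.exp_le_exp.mpr
        linarith
      have h3 : 2 * (Fintype.card V : ℝ) * Real.exp (-(k : ℝ) / 115200) ≤
          2 * (Fintype.card V : ℝ) * ((Fintype.card V : ℝ) ^ 4)⁻¹ :=
        mul_le_mul_of_nonneg_left h1 (by positivity)
      refine h3.trans ?_
      have h4 : 2 * (Fintype.card V : ℝ) * ((Fintype.card V : ℝ) ^ 4)⁻¹ =
          2 / (Fintype.card V : ℝ) ^ 3 := by
        field_simp
      rw [h4, div_le_iff₀ (by positivity)]
      have h5 : (2 : ℝ) ^ 3 ≤ (Fintype.card V : ℝ) ^ 3 := pow_le_pow_left₀ (by norm_num) hn2 3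
      linarith

end Pool.Agent.Helper45_Comp
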