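import Mathlib

set_option autoImplicit false

/-! Hakimi's orientation theorem (from Hall's theorem) and permutations with prescribed
fibres. -/

namespace Pool.Agent.Helper45_Comp

open Finset

/-- Assign every element of `R` to one of its two ends so that `v` gets exactly `m v`. -/
theorem exists_assign {E V : Type} [Fintype V] [DecidableEq V] [DecidableEq E]
    (R : Finset E) (a b : E → V) (m : V → ℕ)
    (htot : ∑ v, m v = R.card)
    (hS : ∀ S : Finset V, (R.filter (fun e => a e ∈ S ∧ b e ∈ S)).card ≤ ∑ v ∈ S, m v) :
    ∃ φ : E → V, (∀ e ∈ R, φ e = a e ∨ φ e = b e) ∧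
      ∀ v, (R.filter (fun e => φ e = v)).card = m v := by
  classical
  let slots : R → Finset (Σ v : V, Fin (m v)) := fun e =>
    univ.filter (fun s => s.1 = a e.1 ∨ s.1 = b e.1)
  have hall : ∀ A : Finset R, A.card ≤ (A.biUnion slots).card := by
    intro A
    set S : Finset V := univ.filter (fun v => ∃ e ∈ A, v = a e.1 ∨ v = b e.1) with hSdef
    have h1 : A.biUnion slots = univ.filter (fun s : Σ v : V, Fin (m v) => s.1 ∈ S) := by
      ext s
      simp [slots, hSdef]
    have h2 : (univ.filter (fun s : Σ v : V, Fin (m v) => s.1 ∈ S)).card = ∑ v ∈ S, m v := by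
      have : univ.filter (fun s : Σ v : V, Fin (m v) => s.1 ∈ S) =
          S.sigma (fun v => (univ : Finset (Fin (m v)))) := by
        ext s; simp
      rw [this, Finset.card_sigma]
      simp
    rw [h1, h2]
    refine le_trans ?_ (hS S)
    rw [← Finset.card_map (Function.Embedding.subtype (· ∈ R))]
    apply Finset.card_le_card
    intro e he
    simp only [Finset.mem_map, Function.Embedding.coe_subtype] at he
    obtain ⟨e', he', rfl⟩ := he
    simp only [mem_filter]
    refine ⟨e'.2, ?_, ?_⟩
    · simp only [hSdef, mem_filter, mem_univ, true_and]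
      exact ⟨e', he', Or.inl rfl⟩
    · simp only [hSdef, mem_filter, mem_univ, true_and]
      exact ⟨e', he', Or.inr rfl⟩
  obtain ⟨f, hinj, hf⟩ := (Finset.all_card_le_biUnion_card_iff_exists_injective slots).mp hall
  refine ⟨fun e => if h : e ∈ R then (f ⟨e, h⟩).1 else a e, ?_, ?_⟩
  · intro e he
    have := hf ⟨e, he⟩
    simp only [slots, mem_filter, mem_univ, true_and] at this
    simpa [he] using this
  · -- transfer to the subtype
    have hcard : ∀ v, (R.filter (fun e => (if h : e ∈ R then (f ⟨e, h⟩).1 else a e) = v)).card
        = (univ.filter (fun e : R => (f e).1 = v)).card := by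
      intro v
      rw [← Finset.card_map (Function.Embedding.subtype (· ∈ R))
        (s := univ.filter (fun e : R => (f e).1 = v))]
      congr 1
      ext e
      simp only [mem_filter, Finset.mem_map, mem_univ, true_and,
        Function.Embedding.coe_subtype, Subtype.exists, exists_and_right, exists_eq_right]
      constructor
      · rintro ⟨h1, h2⟩
        refine ⟨h1, ?_⟩
        simpa [h1] using h2
      · rintro ⟨h1, h2⟩
        refine ⟨h1, ?_⟩
        simpa [h1] using h2
    have hle : ∀ v, (univ.filter (fun e : R => (f e).1 = v)).card ≤ m v := by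
      intro v
      have h1 : (univ.filter (fun e : R => (f e).1 = v)).card ≤
          (univ.filter (fun s : Σ v : V, Fin (m v) => s.1 = v)).card := by
        apply Finset.card_le_card_of_injOn f
        · intro e he
          simpa using he
        · exact hinj.injOn
      refine h1.trans ?_
      have : univ.filter (fun s : Σ v : V, Fin (m v) => s.1 = v) =
          ({v} : Finset V).sigma (fun v => (univ : Finset (Fin (m v)))) := by
        ext s; simp
      rw [this, Finset.card_sigma]
      simp
    have htot2 : ∑ v, (univ.filter (fun e : R => (f e).1 = v)).card = ∑ v, m v := by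
      rw [htot]
      have := Finset.card_eq_sum_card_fiberwise (f := fun e : R => (f e).1)
        (s := (univ : Finset R)) (t := (univ : Finset V)) (by intro x _; simp)
      rw [← this]
      simp
    intro v
    rw [hcard]
    by_contra hne
    have hlt : (univ.filter (fun e : R => (f e).1 = v)).card < m v :=
      lt_of_le_of_ne (hle v) hne
    have := Finset.sum_lt_sum (fun w (_ : w ∈ (univ : Finset V)) => hle w)
      ⟨v, mem_univ v, hlt⟩
    omega

/-- two maps with equally large fibres differ by a permutation -/
theorem exists_perm_of_card {E X : Type} [Fintype E] [DecidableEq E] [DecidableEq X]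
    (f g : E → X)
    (h : ∀ x, (univ.filter (fun e => f e = x)).card = (univ.filter (fun e => g e = x)).card) :
    ∃ τ : Equiv.Perm E, ∀ e, g (τ e) = f e := by
  classical
  have hF : ∀ x, Nonempty ({e // f e = x} ≃ {e // g e = x}) := by
    intro x
    apply Fintype.card_eq.mp
    rw [Fintype.card_subtype, Fintype.card_subtype]
    exact h x
  let F := fun x => Classical.choice (hF x)
  refine ⟨Equiv.ofFiberEquiv (f := f) (g := g) F, ?_⟩
  intro e
  exact Equiv.ofFiberEquiv_map F e

end Pool.Agent.Helper45_Comp
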