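import Pool.Agent.Helper45_Comp.MGF

set_option autoImplicit false
set_option linter.unusedSectionVars false

/-! Random proper colourings of the cycles of a permutation with uniform marginals. -/

namespace Pool.Agent.Helper45_Comp

open Finset

/-- first colour in the order `p 0, p 1, p 2` that is neither `x` nor `y` -/
def pick (p : Equiv.Perm (Fin 3)) (x y : Fin 3) : Fin 3 :=
  if p 0 ≠ x ∧ p 0 ≠ y then p 0 else if p 1 ≠ x ∧ p 1 ≠ y then p 1 else p 2

theorem pick_ne_left : ∀ (p : Equiv.Perm (Fin 3)) (x y : Fin 3), pick p x y ≠ x := by decide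

theorem pick_ne_right : ∀ (p : Equiv.Perm (Fin 3)) (x y : Fin 3), pick p x y ≠ y := by decide

theorem pick_mul (g p : Equiv.Perm (Fin 3)) (x y : Fin 3) :
    pick (g * p) (g x) (g y) = g (pick p x y) := by
  unfold pick
  simp only [Equiv.Perm.coe_mul, Function.comp_apply, ne_eq, EmbeddingLike.apply_eq_iff_eq]
  split_ifs <;> rfl

abbrev Om := Equiv.Perm (Fin 3) × Bool

section
variable {E : Type} [Fintype E] [DecidableEq E]

theorem exists_three_colouring (σ : Equiv.Perm E) (hσ : ∀ e, σ e ≠ e) :
    ∃ h : E → Fin 3, ∀ e, h e ≠ h (σ e) := by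
  have key : ∀ A : Finset E, ∃ h : E → Fin 3, ∀ x ∈ A, σ x ∈ A → h x ≠ h (σ x) := by
    intro A
    induction A using Finset.induction_on with
    | empty => exact ⟨fun _ => 0, by simp⟩
    | insert e A _ ih =>
      obtain ⟨h, hh⟩ := ih
      refine ⟨Function.update h e (pick 1 (h (σ e)) (h (σ.symm e))), ?_⟩
      intro x hx hσx
      by_cases hxe : x = e
      · subst hxe
        rw [Function.update_self, Function.update_of_ne (hσ x)]
        exact pick_ne_left _ _ _
      · rw [Function.update_of_ne hxe]
        by_cases hσe : σ x = e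
        · rw [hσe, Function.update_self]
          have : x = σ.symm e := by rw [← hσe]; simp
          rw [this]
          exact (pick_ne_right _ _ _).symm
        · rw [Function.update_of_ne hσe]
          apply hh
          · exact (Finset.mem_insert.mp hx).resolve_left hxe
          · exact (Finset.mem_insert.mp hσx).resolve_left hσe
  obtain ⟨h, hh⟩ := key univ
  exact ⟨h, fun e => hh e (mem_univ _) (mem_univ _)⟩

variable (σ : Equiv.Perm E) (h : E → Fin 3)

def c0 (w : E → Om) (e : E) : Fin 3 := (w e).1 0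

def c1 (w : E → Om) (e : E) : Fin 3 :=
  if h e = 0 then c0 w e else pick (w e).1 (c0 w (σ e)) (c0 w (σ.symm e))

def c2 (w : E → Om) (e : E) : Fin 3 :=
  if h e = 2 then pick (w e).1 (c1 σ h w (σ e)) (c1 σ h w (σ.symm e)) else c1 σ h w e

/-- the flexible elements -/
def fl (w : E → Om) (e : E) : Bool := (w e).2 && !(w (σ e)).2

theorem c2_proper (hh : ∀ e, h e ≠ h (σ e)) (w : E → Om) (e : E) :
    c2 σ h w e ≠ c2 σ h w (σ e) := by
  have h1 := hh e
  unfold c2
  by_cases ha : h e = 2
  · have hb : h (σ e) ≠ 2 := fun hb => h1 (ha.trans hb.symm)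
    rw [if_pos ha, if_neg hb]
    exact pick_ne_left _ _ _
  · rw [if_neg ha]
    by_cases hb : h (σ e) = 2
    · rw [if_pos hb]
      simp only [Equiv.symm_apply_apply]
      exact (pick_ne_right _ _ _).symm
    · rw [if_neg hb]
      unfold c1
      by_cases ha0 : h e = 0
      · have hb0 : h (σ e) ≠ 0 := fun hb0 => h1 (ha0.trans hb0.symm)
        rw [if_pos ha0, if_neg hb0]
        simp only [Equiv.symm_apply_apply]
        exact (pick_ne_right _ _ _).symm
      · have hb0 : h (σ e) = 0 := by
          by_contra hb0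
          apply h1
          have e1 : h e = 1 := by
            revert ha ha0; generalize h e = x; revert x; decide
          have e2 : h (σ e) = 1 := by
            revert hb hb0; generalize h (σ e) = x; revert x; decide
          rw [e1, e2]
        rw [if_neg ha0, if_pos hb0]
        exact pick_ne_left _ _ _

theorem fl_indep (w : E → Om) (e : E) : ¬ (fl σ w e = true ∧ fl σ w (σ e) = true) := by
  unfold fl
  intro ⟨h1, h2⟩
  simp only [Bool.and_eq_true, Bool.not_eq_true'] at h1 h2
  rw [h1.2] at h2
  exact absurd h2.1 (by simp)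

/-- action of the permutations of the colours -/
def actE (g : Equiv.Perm (Fin 3)) : (E → Om) ≃ (E → Om) :=
  Equiv.piCongrRight (fun _ => Equiv.prodCongr (Equiv.mulLeft g) (Equiv.refl Bool))

theorem actE_apply (g : Equiv.Perm (Fin 3)) (w : E → Om) (e : E) :
    actE g w e = (g * (w e).1, (w e).2) := rfl

theorem c0_act (g : Equiv.Perm (Fin 3)) (w : E → Om) (e : E) :
    c0 (actE g w) e = g (c0 w e) := rfl

theorem c1_act (g : Equiv.Perm (Fin 3)) (w : E → Om) (e : E) :
    c1 σ h (actE g w) e = g (c1 σ h w e) := by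
  unfold c1
  split_ifs
  · rfl
  · rw [c0_act, c0_act, actE_apply, pick_mul]

theorem c2_act (g : Equiv.Perm (Fin 3)) (w : E → Om) (e : E) :
    c2 σ h (actE g w) e = g (c2 σ h w e) := by
  unfold c2
  split_ifs
  · rw [c1_act, c1_act, actE_apply, pick_mul]
  · rw [c1_act]

theorem fl_act (g : Equiv.Perm (Fin 3)) (w : E → Om) (e : E) :
    fl σ (actE g w) e = fl σ w e := rfl

/-- flipping one bit -/
def flipE (x : E) : (E → Om) ≃ (E → Om) :=
  Equiv.piCongrRight (fun y => if y = x then
    Equiv.prodCongr (Equiv.refl _) Equiv.boolNot else Equiv.refl _)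

theorem flipE_self (x : E) (w : E → Om) : flipE x w x = ((w x).1, !(w x).2) := by
  simp [flipE]
  rfl

theorem flipE_ne (x y : E) (hxy : y ≠ x) (w : E → Om) : flipE x w y = w y := by
  simp [flipE, hxy]

/-- number of points of the probability space -/
noncomputable def NN (E : Type) [Fintype E] [DecidableEq E] : ℝ := (Fintype.card (E → Om) : ℝ)

theorem NN_pos : 0 < NN E := by
  unfold NN
  exact_mod_cast Fintype.card_pos

theorem sum_fl (hσ : ∀ e, σ e ≠ e) (e : E) :
    ∑ w : E → Om, (if fl σ w e = true then (1 : ℝ) else 0) = NN E / 4 := by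
  set A : Bool → Bool → ℝ := fun s t =>
    ∑ w : E → Om, (if (w e).2 = s ∧ (w (σ e)).2 = t then (1 : ℝ) else 0) with hA
  have h1 : ∑ w : E → Om, (if fl σ w e = true then (1 : ℝ) else 0) = A true false := by
    rw [hA]
    apply Finset.sum_congr rfl
    intro w _
    simp [fl]
  have h2 : ∀ s t, A s t = A (!s) t := by
    intro s t
    rw [hA]
    simp only
    rw [← Equiv.sum_comp (flipE e)]
    apply Finset.sum_congr rfl
    intro w _
    rw [flipE_self, flipE_ne e (σ e) (hσ e)]
    congr 1
    simp only [eq_iff_iff]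
    constructor
    · rintro ⟨h3, h4⟩
      exact ⟨by rw [← h3]; simp, h4⟩
    · rintro ⟨h3, h4⟩
      exact ⟨by simp [h3], h4⟩
  have h3 : ∀ s t, A s t = A s (!t) := by
    intro s t
    rw [hA]
    simp only
    rw [← Equiv.sum_comp (flipE (σ e))]
    apply Finset.sum_congr rfl
    intro w _
    rw [flipE_self, flipE_ne (σ e) e (hσ e).symm]
    congr 1
    simp only [eq_iff_iff]
    constructor
    · rintro ⟨h3, h4⟩
      exact ⟨h3, by rw [← h4]; simp⟩
    · rintro ⟨h3, h4⟩
      exact ⟨h3, by simp [h4]⟩
  have h4 : A true true + A true false + A false true + A false false = NN E := by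
    rw [hA]
    simp only
    rw [← Finset.sum_add_distrib, ← Finset.sum_add_distrib, ← Finset.sum_add_distrib]
    have : NN E = ∑ _w : E → Om, (1 : ℝ) := by simp [NN]
    rw [this]
    apply Finset.sum_congr rfl
    intro w _
    rcases (w e).2 <;> rcases (w (σ e)).2 <;> simp
  have h5 := h2 true true
  have h6 := h3 true true
  have h7 := h3 false true
  simp only [Bool.not_true] at h5 h6 h7
  rw [h1]
  linarith

/-- uniform marginals -/
theorem sum_colour (φ : (E → Om) → Prop) [DecidablePred φ]
    (hφ : ∀ g w, φ (actE g w) ↔ φ w) (e : E) (i : Fin 3) :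
    ∑ w : E → Om, (if c2 σ h w e = i ∧ φ w then (1 : ℝ) else 0) =
      (∑ w : E → Om, (if φ w then (1 : ℝ) else 0)) / 3 := by
  have h1 : ∀ j : Fin 3, ∑ w : E → Om, (if c2 σ h w e = i ∧ φ w then (1 : ℝ) else 0) =
      ∑ w : E → Om, (if c2 σ h w e = j ∧ φ w then (1 : ℝ) else 0) := by
    intro j
    rw [← Equiv.sum_comp (actE (E := E) (Equiv.swap i j))]
    apply Finset.sum_congr rfl
    intro w _
    rw [c2_act]
    congr 1
    simp only [eq_iff_iff, hφ]
    have : Equiv.swap i j (c2 σ h w e) = i ↔ c2 σ h w e = j := by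
      rw [Equiv.swap_apply_eq_iff, Equiv.swap_apply_left]
    rw [this]
  have h2 : ∑ w : E → Om, (if φ w then (1 : ℝ) else 0) =
      ∑ j : Fin 3, ∑ w : E → Om, (if c2 σ h w e = j ∧ φ w then (1 : ℝ) else 0) := by
    rw [Finset.sum_comm]
    apply Finset.sum_congr rfl
    intro w _
    by_cases hw : φ w
    · simp [hw]
    · simp [hw]
  rw [h2, ← Finset.sum_congr rfl (fun j _ => h1 j)]
  simp

end

end Pool.Agent.Helper45_Comp
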