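import Mathlib

set_option autoImplicit false

/-! Exponential moments of functions of finitely many independent uniform variables. -/

namespace Pool.Agent.Helper45_Comp

open Finset

theorem avg_exp_le {X : Type*} [Fintype X] [Nonempty X] (g : X → ℝ) (c : ℝ) (hc1 : c ≤ 1)
    (h : ∀ x y, |g x - g y| ≤ c) :
    ∑ x, Real.exp (g x) ≤
      (Fintype.card X : ℝ) * Real.exp ((∑ x, g x) / Fintype.card X + c ^ 2) := by
  have hX : (0 : ℝ) < Fintype.card X := by exact_mod_cast Fintype.card_pos
  set μ : ℝ := (∑ x, g x) / Fintype.card X with hμ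
  have hc : 0 ≤ c := by
    obtain ⟨x⟩ := (inferInstance : Nonempty X)
    exact (abs_nonneg _).trans (h x x)
  have hdev : ∀ x, |g x - μ| ≤ c := by
    intro x
    have h1 : g x - μ = (∑ y, (g x - g y)) / Fintype.card X := by
      rw [Finset.sum_sub_distrib, hμ]
      simp only [Finset.sum_const, Finset.card_univ, nsmul_eq_mul]
      field_simp
    rw [h1, abs_div, abs_of_pos hX, div_le_iff₀ hX]
    calc |∑ y, (g x - g y)| ≤ ∑ y, |g x - g y| := Finset.abs_sum_le_sum_abs _ _
      _ ≤ ∑ _y : X, c := Finset.sum_le_sum (fun y _ => h x y)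
      _ = c * Fintype.card X := by simp [mul_comm]
  have hpt : ∀ x, Real.exp (g x) ≤ Real.exp μ * (1 + (g x - μ) + c ^ 2) := by
    intro x
    have h1 : |g x - μ| ≤ 1 := (hdev x).trans hc1
    have h2 := Real.abs_exp_sub_one_sub_id_le h1
    have h3 : Real.exp (g x - μ) ≤ 1 + (g x - μ) + (g x - μ) ^ 2 := by
      have := (abs_le.mp h2).2
      linarith
    have h4 : (g x - μ) ^ 2 ≤ c ^ 2 := by
      rw [← sq_abs]
      exact pow_le_pow_left₀ (abs_nonneg _) (hdev x) 2
    have h5 : Real.exp (g x) = Real.exp μ * Real.exp (g x - μ) := by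
      rw [← Real.exp_add]; congr 1; ring
    rw [h5]
    exact mul_le_mul_of_nonneg_left (by linarith) (Real.exp_pos μ).le
  have hsum0 : ∑ x, (g x - μ) = 0 := by
    rw [Finset.sum_sub_distrib, hμ]
    simp only [Finset.sum_const, Finset.card_univ, nsmul_eq_mul]
    field_simp
    ring
  calc ∑ x, Real.exp (g x) ≤ ∑ x, Real.exp μ * (1 + (g x - μ) + c ^ 2) :=
        Finset.sum_le_sum (fun x _ => hpt x)
    _ = Real.exp μ * (Fintype.card X * (1 + c ^ 2)) := by
        rw [← Finset.mul_sum, Finset.sum_add_distrib, Finset.sum_add_distrib, hsum0]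
        simp only [Finset.sum_const, Finset.card_univ, nsmul_eq_mul]
        ring
    _ ≤ Real.exp μ * (Fintype.card X * Real.exp (c ^ 2)) := by
        apply mul_le_mul_of_nonneg_left _ (Real.exp_pos μ).le
        apply mul_le_mul_of_nonneg_left _ hX.le
        have := Real.add_one_le_exp (c ^ 2)
        linarith
    _ = (Fintype.card X : ℝ) * Real.exp (μ + c ^ 2) := by
        rw [Real.exp_add]; ring

theorem mgf_fin {Ω : Type*} [Fintype Ω] [Nonempty Ω] : ∀ (n : ℕ) (f : (Fin n → Ω) → ℝ)
    (c : Fin n → ℝ), (∀ i, c i ≤ 1) →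
    (∀ i ω ω', (∀ j, j ≠ i → ω j = ω' j) → |f ω - f ω'| ≤ c i) →
    ∑ ω, Real.exp (f ω) ≤ (Fintype.card (Fin n → Ω) : ℝ) *
      Real.exp ((∑ ω, f ω) / Fintype.card (Fin n → Ω) + ∑ i, c i ^ 2) := by
  intro n
  induction n with
  | zero =>
    intro f c _ _
    simp
  | succ n ih =>
    intro f c hc1 hf
    have hN : (0 : ℝ) < Fintype.card (Fin n → Ω) := by exact_mod_cast Fintype.card_pos
    have hO : (0 : ℝ) < Fintype.card Ω := by exact_mod_cast Fintype.card_pos
    have hsum : ∀ F : (Fin (n + 1) → Ω) → ℝ,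
        ∑ ω, F ω = ∑ x : Ω, ∑ ω' : Fin n → Ω, F (Fin.cons x ω') := by
      intro F
      rw [← Fintype.sum_prod_type']
      exact (Fintype.sum_equiv (Fin.consEquiv (fun _ : Fin (n + 1) => Ω)) _ _
        (fun p => by simp [Fin.consEquiv])).symm
    have hcard : (Fintype.card (Fin (n + 1) → Ω) : ℝ) =
        Fintype.card Ω * Fintype.card (Fin n → Ω) := by
      simp [Fintype.card_fun, pow_succ]
      ring
    -- averages over the last variables
    set g : Ω → ℝ := fun x => (∑ ω' : Fin n → Ω, f (Fin.cons x ω')) / Fintype.card (Fin n → Ω)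
      with hg
    have hg1 : ∀ x y, |g x - g y| ≤ c 0 := by
      intro x y
      have : g x - g y = (∑ ω' : Fin n → Ω, (f (Fin.cons x ω') - f (Fin.cons y ω'))) /
          Fintype.card (Fin n → Ω) := by
        rw [hg, Finset.sum_sub_distrib]
        ring
      rw [this, abs_div, abs_of_pos hN, div_le_iff₀ hN]
      calc |∑ ω' : Fin n → Ω, (f (Fin.cons x ω') - f (Fin.cons y ω'))|
          ≤ ∑ ω' : Fin n → Ω, |f (Fin.cons x ω') - f (Fin.cons y ω')| :=
            Finset.abs_sum_le_sum_abs _ _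
        _ ≤ ∑ _ω' : Fin n → Ω, c 0 := by
            apply Finset.sum_le_sum
            intro ω' _
            apply hf
            intro j hj
            obtain ⟨j', rfl⟩ := Fin.exists_succ_eq.mpr hj
            simp
        _ = c 0 * Fintype.card (Fin n → Ω) := by
            simp only [Finset.sum_const, Finset.card_univ, nsmul_eq_mul]
            ring
    have hstep : ∀ x : Ω, ∑ ω' : Fin n → Ω, Real.exp (f (Fin.cons x ω')) ≤
        (Fintype.card (Fin n → Ω) : ℝ) * Real.exp (g x + ∑ i : Fin n, c i.succ ^ 2) := by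
      intro x
      apply ih (fun ω' => f (Fin.cons x ω')) (fun i => c i.succ) (fun i => hc1 _)
      intro i ω ω' h
      apply hf i.succ
      intro j hj
      refine Fin.cases ?_ ?_ j (motive := fun j => j ≠ i.succ →
        (Fin.cons x ω : Fin (n + 1) → Ω) j = (Fin.cons x ω' : Fin (n + 1) → Ω) j) hj
      · intro _; simp
      · intro k hk
        simp only [Fin.cons_succ]
        apply h
        intro hki
        exact hk (by rw [hki])
    have hav := avg_exp_le g (c 0) (hc1 0) hg1
    rw [hsum (fun ω => Real.exp (f ω)), hcard, hsum f]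
    calc ∑ x : Ω, ∑ ω' : Fin n → Ω, Real.exp (f (Fin.cons x ω'))
        ≤ ∑ x : Ω, (Fintype.card (Fin n → Ω) : ℝ) *
            Real.exp (g x + ∑ i : Fin n, c i.succ ^ 2) := Finset.sum_le_sum (fun x _ => hstep x)
      _ = (Fintype.card (Fin n → Ω) : ℝ) * Real.exp (∑ i : Fin n, c i.succ ^ 2) *
            ∑ x : Ω, Real.exp (g x) := by
          rw [Finset.mul_sum]
          apply Finset.sum_congr rfl
          intro x _
          rw [Real.exp_add]; ring
      _ ≤ (Fintype.card (Fin n → Ω) : ℝ) * Real.exp (∑ i : Fin n, c i.succ ^ 2) *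
            ((Fintype.card Ω : ℝ) * Real.exp ((∑ x, g x) / Fintype.card Ω + c 0 ^ 2)) := by
          apply mul_le_mul_of_nonneg_left hav
          exact mul_nonneg hN.le (Real.exp_pos _).le
      _ = (Fintype.card Ω * Fintype.card (Fin n → Ω) : ℝ) *
            Real.exp ((∑ x : Ω, ∑ ω' : Fin n → Ω, f (Fin.cons x ω')) /
              (Fintype.card Ω * Fintype.card (Fin n → Ω)) + ∑ i : Fin (n + 1), c i ^ 2) := by
          rw [Fin.sum_univ_succ]
          have h1 : (∑ x, g x) / Fintype.card Ω =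
              (∑ x : Ω, ∑ ω' : Fin n → Ω, f (Fin.cons x ω')) /
              (Fintype.card Ω * Fintype.card (Fin n → Ω)) := by
            rw [hg, ← Finset.sum_div]
            field_simp
          rw [h1]
          rw [show (∑ x : Ω, ∑ ω' : Fin n → Ω, f (Fin.cons x ω')) /
              (Fintype.card Ω * Fintype.card (Fin n → Ω) : ℝ) +
              (c 0 ^ 2 + ∑ i : Fin n, c i.succ ^ 2) =
              (∑ i : Fin n, c i.succ ^ 2) + ((∑ x : Ω, ∑ ω' : Fin n → Ω, f (Fin.cons x ω')) /
              (Fintype.card Ω * Fintype.card (Fin n → Ω) : ℝ) + c 0 ^ 2) by ring]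
          rw [Real.exp_add (∑ i : Fin n, c i.succ ^ 2)]
          ring

theorem mgf {ι Ω : Type*} [Fintype ι] [DecidableEq ι] [Fintype Ω] [Nonempty Ω]
    (f : (ι → Ω) → ℝ) (c : ι → ℝ) (hc1 : ∀ i, c i ≤ 1)
    (hf : ∀ i ω ω', (∀ j, j ≠ i → ω j = ω' j) → |f ω - f ω'| ≤ c i) :
    ∑ ω, Real.exp (f ω) ≤ (Fintype.card (ι → Ω) : ℝ) *
      Real.exp ((∑ ω, f ω) / Fintype.card (ι → Ω) + ∑ i, c i ^ 2) := by
  classical
  set e := Fintype.equivFin ι
  set E : (Fin (Fintype.card ι) → Ω) ≃ (ι → Ω) := e.symm.arrowCongr (Equiv.refl Ω) with hE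
  have hEv : ∀ ω i, E ω i = ω (e i) := by
    intro ω i; simp [hE, Equiv.arrowCongr]
  have h := mgf_fin (Ω := Ω) (Fintype.card ι) (fun ω => f (E ω)) (fun i => c (e.symm i))
    (fun i => hc1 _) (by
      intro i ω ω' hω
      apply hf
      intro j hj
      rw [hEv, hEv]
      apply hω
      intro h
      apply hj
      rw [← h]; simp)
  rw [Fintype.card_congr E] at h
  rw [← Equiv.sum_comp E (fun ω => Real.exp (f ω)), ← Equiv.sum_comp E f,
    ← Equiv.sum_comp e.symm (fun i => c i ^ 2)]
  exact h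

end Pool.Agent.Helper45_Comp
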