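import Pool.Agent.Helper45_Comp.Dev
import Pool.Agent.Helper45_Comp.Cuts
import Pool.Agent.Helper45_Comp.Hall

set_option autoImplicit false
set_option linter.unusedSectionVars false

/-! Compatible decompositions of Eulerian digraphs with logarithmic arc-connectivity. -/

namespace Pool.Agent.Helper45_Comp

open Finset

section
variable {V E : Type} [Fintype V] [DecidableEq V] [Fintype E] [DecidableEq E]
  (head tail : E → V)

/-- arcs leaving `S` -/
def outA (S : Finset V) : Finset E := univ.filter (fun e => tail e ∈ S ∧ head e ∉ S)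

/-- arcs entering `S` -/
def inA (S : Finset V) : Finset E := univ.filter (fun e => head e ∈ S ∧ tail e ∉ S)

theorem card_out_eq_in (σ : Equiv.Perm E) (hσ : ∀ e, tail (σ e) = head e) (S : Finset V) :
    (outA head tail S).card = (inA head tail S).card := by
  have h1 : (univ.filter (fun e => tail e ∈ S)).card = (univ.filter (fun e => head e ∈ S)).card := by
    rw [Finset.card_filter, Finset.card_filter, ← Equiv.sum_comp σ]
    apply Finset.sum_congr rfl
    intro e _
    rw [hσ]
  have h2 : (univ.filter (fun e => tail e ∈ S)).card =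
      (outA head tail S).card + (univ.filter (fun e => tail e ∈ S ∧ head e ∈ S)).card := by
    rw [← Finset.card_filter_add_card_filter_not (s := univ.filter (fun e => tail e ∈ S))
      (fun e => head e ∉ S)]
    simp only [outA, Finset.filter_filter, not_not]
  have h3 : (univ.filter (fun e => head e ∈ S)).card =
      (inA head tail S).card + (univ.filter (fun e => tail e ∈ S ∧ head e ∈ S)).card := by
    rw [← Finset.card_filter_add_card_filter_not (s := univ.filter (fun e => head e ∈ S))
      (fun e => tail e ∉ S)]
    simp only [inA, Finset.filter_filter, not_not]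
    congr 2
    ext e
    simp [and_comm]
  omega

theorem disj_out_in (S : Finset V) : Disjoint (outA head tail S) (inA head tail S) := by
  rw [Finset.disjoint_left]
  intro e h1 h2
  simp only [outA, inA, mem_filter, mem_univ, true_and] at h1 h2
  exact h1.2 h2.1

theorem bd_card (σ : Equiv.Perm E) (hσ : ∀ e, tail (σ e) = head e) (S : Finset V) :
    (bd tail head S).card = 2 * (outA head tail S).card := by
  have h1 : bd tail head S = outA head tail S ∪ inA head tail S := by
    ext e
    simp only [mem_bd, outA, inA, mem_union, mem_filter, mem_univ, true_and]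
    tauto
  rw [h1, Finset.card_union_of_disjoint (disj_out_in head tail S),
    ← card_out_eq_in head tail σ hσ S]
  ring

theorem geom_bound (M : ℕ) : ∑ j ∈ range M, (1 / 4 : ℝ) ^ (j + 2) ≤
    1 / 12 - 1 / 12 * (1 / 4) ^ M := by
  induction M with
  | zero => simp
  | succ M ih =>
    rw [Finset.sum_range_succ]
    have : (1 / 4 : ℝ) ^ (M + 2) = 1 / 16 * (1 / 4) ^ M := by rw [pow_add]; ring
    rw [this, pow_succ]
    linarith

/-- the non-trivial vertex sets -/
def nontr (V : Type) [Fintype V] [DecidableEq V] : Finset (Finset V) :=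
  univ.filter (fun S => S.Nonempty ∧ S ≠ univ)

theorem cut_sum [Nonempty V] (σ : Equiv.Perm E) (hσ : ∀ e, tail (σ e) = head e) (k : ℕ)
    (hk : 1 ≤ k)
    (hcut : ∀ S : Finset V, S.Nonempty → S ≠ univ → k ≤ (outA head tail S).card)
    (hρ : 2 * (Fintype.card V : ℝ) * Real.exp (-(k : ℝ) / 115200) ≤ 1 / 4) :
    ∑ S ∈ nontr V, Real.exp (-((outA head tail S).card : ℝ) / 28800) ≤ 1 / 12 := by
  set D : Finset V → ℕ := fun S => (outA head tail S).card with hD
  -- level: 2 D ≤ (j + 2) k
  set J : Finset V → ℕ := fun S => (2 * D S - 1) / k - 1 with hJ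
  have hJ1 : ∀ S ∈ nontr V, 2 * D S ≤ (J S + 2) * k ∧ (J S + 2) * k ≤ 4 * D S := by
    intro S hS
    simp only [nontr, mem_filter, mem_univ, true_and] at hS
    have hkD : k ≤ D S := hcut S hS.1 hS.2
    have h1 : 1 ≤ (2 * D S - 1) / k := by
      rw [Nat.one_le_div_iff hk]; omega
    have h2 : J S + 2 = (2 * D S - 1) / k + 1 := by
      rw [hJ]; simp only; omega
    rw [h2]
    have h3 := Nat.div_add_mod (2 * D S - 1) k
    have h4 := Nat.mod_lt (2 * D S - 1) hk
    set q := (2 * D S - 1) / k
    set r := (2 * D S - 1) % k
    have h5 : (q + 1) * k = k * q + k := by ring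
    rw [h5]
    constructor
    · omega
    · have h6 : k * q ≤ 2 * D S - 1 := by omega
      omega
  have hJ2 : ∀ S ∈ nontr V, J S ∈ range (4 * Fintype.card E + 1) := by
    intro S hS
    rw [mem_range]
    have h1 := (hJ1 S hS).2
    have h2 : D S ≤ Fintype.card E := Finset.card_le_univ _
    have h3 : J S + 2 ≤ (J S + 2) * k := Nat.le_mul_of_pos_right _ hk
    omega
  have hn : (0 : ℝ) ≤ 2 * (Fintype.card V : ℝ) := by positivity
  have hρ0 : 0 ≤ 2 * (Fintype.card V : ℝ) * Real.exp (-(k : ℝ) / 115200) :=
    mul_nonneg hn (Real.exp_pos _).le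
  rw [← Finset.sum_fiberwise_of_maps_to hJ2]
  calc ∑ j ∈ range (4 * Fintype.card E + 1), ∑ S ∈ (nontr V).filter (fun S => J S = j),
        Real.exp (-((outA head tail S).card : ℝ) / 28800)
      ≤ ∑ j ∈ range (4 * Fintype.card E + 1), (1 / 4 : ℝ) ^ (j + 2) := by
        apply Finset.sum_le_sum
        intro j _
        have h1 : ∀ S ∈ (nontr V).filter (fun S => J S = j),
            Real.exp (-((outA head tail S).card : ℝ) / 28800) ≤
              Real.exp (-(k : ℝ) / 115200) ^ (j + 2) := by
          intro S hS
          rw [mem_filter] at hS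
          have h2 := (hJ1 S hS.1).2
          rw [hS.2] at h2
          rw [← Real.exp_nat_mul]
          apply Real.exp_le_exp.mpr
          have h3 : (((j + 2) * k : ℕ) : ℝ) ≤ ((4 * D S : ℕ) : ℝ) := by exact_mod_cast h2
          push_cast at h3 ⊢
          rw [hD] at h3
          simp only at h3
          linarith
        have h2 : (nontr V).filter (fun S => J S = j) ⊆ smallCuts tail head (j + 2) (2 * k) := by
          intro S hS
          rw [mem_filter] at hS
          have h3 := (hJ1 S hS.1).1
          rw [hS.2] at h3
          have h4 := hS.1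
          simp only [nontr, mem_filter, mem_univ, true_and] at h4
          rw [mem_smallCuts]
          refine ⟨h4.1, h4.2, ?_⟩
          rw [bd_card head tail σ hσ]
          have : (j + 2) * (2 * k) = 2 * ((j + 2) * k) := by ring
          rw [this]
          rw [hD] at h3
          simp only at h3
          omega
        have h3 : (((nontr V).filter (fun S => J S = j)).card : ℝ) ≤
            (2 * (Fintype.card V : ℝ)) ^ (j + 2) := by
          have h4 := (Finset.card_le_card h2).trans
            (cut_count' (j + 2) (2 * k) (by omega) V tail head (by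
              intro S hS1 hS2
              rw [bd_card head tail σ hσ]
              have := hcut S hS1 hS2
              omega))
          exact_mod_cast h4
        calc ∑ S ∈ (nontr V).filter (fun S => J S = j),
              Real.exp (-((outA head tail S).card : ℝ) / 28800)
            ≤ ∑ _S ∈ (nontr V).filter (fun S => J S = j),
              Real.exp (-(k : ℝ) / 115200) ^ (j + 2) := Finset.sum_le_sum h1
          _ = (((nontr V).filter (fun S => J S = j)).card : ℝ) *
              Real.exp (-(k : ℝ) / 115200) ^ (j + 2) := by simp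
          _ ≤ (2 * (Fintype.card V : ℝ)) ^ (j + 2) *
              Real.exp (-(k : ℝ) / 115200) ^ (j + 2) := by
              apply mul_le_mul_of_nonneg_right h3
              positivity
          _ = (2 * (Fintype.card V : ℝ) * Real.exp (-(k : ℝ) / 115200)) ^ (j + 2) := by
              exact (mul_pow _ _ _).symm
          _ ≤ (1 / 4 : ℝ) ^ (j + 2) := pow_le_pow_left₀ hρ0 hρ _
    _ ≤ 1 / 12 - 1 / 12 * (1 / 4) ^ (4 * Fintype.card E + 1) := geom_bound _
    _ ≤ 1 / 12 := by
      have : (0 : ℝ) ≤ (1 / 4) ^ (4 * Fintype.card E + 1) := by positivity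
      linarith

/-- a good colouring exists -/
theorem exists_good [Nonempty V] (hloop : ∀ e, head e ≠ tail e) (σ : Equiv.Perm E)
    (hσ : ∀ e, tail (σ e) = head e) (k : ℕ) (hk : 1 ≤ k)
    (hcut : ∀ S : Finset V, S.Nonempty → S ≠ univ → k ≤ (outA head tail S).card)
    (hρ : 2 * (Fintype.card V : ℝ) * Real.exp (-(k : ℝ) / 115200) ≤ 1 / 4) :
    ∃ (c : E → Fin 3) (R : E → Bool), (∀ e, c e ≠ c (σ e)) ∧
      (∀ e, ¬ (R e = true ∧ R (σ e) = true)) ∧
      ∀ S : Finset V, S.Nonempty → S ≠ univ → ∀ i : Fin 3,
        ((outA head tail S).filter (fun e => c e = i ∧ R e = false)).card ≤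
          ((inA head tail S).filter (fun e => c e = i)).card := by
  have hne : ∀ e, σ e ≠ e := by
    intro e h
    apply hloop e
    rw [← hσ e, h]
  obtain ⟨h, hh⟩ := exists_three_colouring σ hne
  have hbad : ∃ w : E → Om, ∀ S ∈ nontr V, ∀ i : Fin 3,
      fS σ h (outA head tail S) (inA head tail S) i w ≤ 0 := by
    by_contra hcon
    push Not at hcon
    have h1 : (univ : Finset (E → Om)) ⊆ (nontr V).biUnion (fun S =>
        (univ : Finset (Fin 3)).biUnion (fun i =>
          univ.filter (fun w => 0 < fS σ h (outA head tail S) (inA head tail S) i w))) := by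
      intro w _
      obtain ⟨S, hS, i, hi⟩ := hcon w
      simp only [mem_biUnion, mem_filter, mem_univ, true_and]
      exact ⟨S, hS, i, hi⟩
    have h2 : NN E ≤ ∑ S ∈ nontr V, ∑ _i : Fin 3,
        NN E * Real.exp (-((outA head tail S).card : ℝ) / 28800) := by
      have h3 := Finset.card_le_card h1
      rw [Finset.card_univ] at h3
      have h4 : (Fintype.card (E → Om) : ℝ) ≤ ∑ S ∈ nontr V, ∑ i : Fin 3,
          ((univ.filter (fun w => 0 < fS σ h (outA head tail S) (inA head tail S) i w)).card : ℝ) := by
        have h5 := h3.trans (Finset.card_biUnion_le.trans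
          (Finset.sum_le_sum (fun S _ => Finset.card_biUnion_le)))
        exact_mod_cast h5
      unfold NN at *
      refine h4.trans ?_
      apply Finset.sum_le_sum
      intro S _
      apply Finset.sum_le_sum
      intro i _
      exact Pool.Agent.Helper45_Comp.tail σ h hne _ _ (disj_out_in head tail S) (card_out_eq_in head tail σ hσ S) i
    have h3 := cut_sum head tail σ hσ k hk hcut hρ
    have h4 : ∑ S ∈ nontr V, ∑ _i : Fin 3,
        NN E * Real.exp (-((outA head tail S).card : ℝ) / 28800) =
        3 * NN E * ∑ S ∈ nontr V, Real.exp (-((outA head tail S).card : ℝ) / 28800) := by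
      rw [Finset.mul_sum]
      apply Finset.sum_congr rfl
      intro S _
      simp
      ring
    rw [h4] at h2
    have h5 := NN_pos (E := E)
    have h6 : 3 * NN E * ∑ S ∈ nontr V, Real.exp (-((outA head tail S).card : ℝ) / 28800) ≤
        3 * NN E * (1 / 12) := mul_le_mul_of_nonneg_left h3 (by positivity)
    linarith
  obtain ⟨w, hw⟩ := hbad
  refine ⟨c2 σ h w, fl σ w, c2_proper σ h hh w, fl_indep σ w, ?_⟩
  intro S hS1 hS2 i
  have h1 := hw S (by simp [nontr, hS1, hS2]) i
  unfold fS at h1
  rw [Finset.sum_boole, Finset.sum_boole] at h1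
  have h2 : (((outA head tail S).filter
      (fun e => c2 σ h w e = i ∧ fl σ w e = false)).card : ℝ) ≤
      (((inA head tail S).filter (fun e => c2 σ h w e = i)).card : ℝ) := by linarith
  exact_mod_cast h2

end

end Pool.Agent.Helper45_Comp
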